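import Pool.Agent.X85.BS.Sit

/-! Part E2: the order of the crossings is determined up to commutations. -/

set_option autoImplicit false

namespace Pool.Agent.X85.BS

open Pool.Agent.X189.BS List

variable {n : ℕ}

theorem exists_first {α : Type} (p : α → Prop) : ∀ B : List α, (∃ e ∈ B, p e) →
    ∃ N e0 B2, B = N ++ e0 :: B2 ∧ p e0 ∧ ∀ e ∈ N, ¬ p e := by
  classical
  intro B
  induction B with
  | nil => simp
  | cons x B ih =>
    intro h
    by_cases hx : p x
    · exact ⟨[], x, B, rfl, hx, by simp⟩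
    · have : ∃ e ∈ B, p e := by
        obtain ⟨e, he, hpe⟩ := h
        rcases List.mem_cons.1 he with rfl | he
        · exact absurd hpe hx
        · exact ⟨e, he, hpe⟩
      obtain ⟨N, e0, B2, h1, h2, h3⟩ := ih this
      refine ⟨x :: N, e0, B2, by rw [h1]; rfl, h2, ?_⟩
      intro e he
      rcases List.mem_cons.1 he with rfl | he
      · exact hx
      · exact h3 e he

theorem exists_last {α : Type} (p : α → Prop) : ∀ A : List α, (∃ e ∈ A, p e) →
    ∃ A1 e0 M, A = A1 ++ e0 :: M ∧ p e0 ∧ ∀ e ∈ M, ¬ p e := by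
  classical
  intro A
  induction A with
  | nil => simp
  | cons x A ih =>
    intro h
    by_cases hA : ∃ e ∈ A, p e
    · obtain ⟨A1, e0, M, h1, h2, h3⟩ := ih hA
      exact ⟨x :: A1, e0, M, by rw [h1]; rfl, h2, h3⟩
    · refine ⟨[], x, A, rfl, ?_, fun e he hp => hA ⟨e, he, hp⟩⟩
      obtain ⟨e, he, hpe⟩ := h
      rcases List.mem_cons.1 he with rfl | he
      · exact hpe
      · exact absurd ⟨e, he, hpe⟩ hA

theorem loc_filter (x : Fin (n + 1)) (p : Pr n → Bool) (L : List (Pr n)) :
    loc x (L.filter p) = (loc x L).filter p := by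
  unfold loc
  rw [List.filter_filter, List.filter_filter]
  congr 1
  funext e
  exact Bool.and_comm _ _

theorem loc_append (x : Fin (n + 1)) (A B : List (Pr n)) :
    loc x (A ++ B) = loc x A ++ loc x B := by
  unfold loc
  exact List.filter_append ..

theorem loc_cons (x : Fin (n + 1)) (e : Pr n) (B : List (Pr n)) :
    loc x (e :: B) = loc x [e] ++ loc x B := by
  rw [← loc_append]
  rfl

theorem Sit.step (hE1 : S_E1) {a c : Fin (n + 1)} {L L' : List (Pr n)} {q : ℤ} (hq : 0 < q)
    (h : Sit a c L L') (hlt : (U a c L).card < (U a c L').card) :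
    ∃ L2, Sit a c L2 L' ∧ (U a c L2).card = (U a c L).card + 1 ∧
      L2.foldl (vstep q) (Pi.single a 1) c < L.foldl (vstep q) (Pi.single a 1) c := by
  classical
  have hn := val_nodup h.v
  have hn' := val_nodup h.v'
  obtain ⟨x, hx', hx⟩ := Finset.exists_mem_notMem_of_card_lt_card hlt
  have bx := U_btw h.v' hx'
  have hac : a < c := bx.1.trans bx.2
  have mac : (a, c) ∈ L := (h.mem _).2 (bef_mem_right (mem_U.1 hx'))
  have mac' : (a, c) ∈ L' := (h.mem _).1 mac
  have max : (a, x) ∈ L := (h.mem _).2 (bef_mem_left (mem_U.1 hx'))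
  obtain ⟨A, B, hL⟩ := List.append_of_mem mac
  have hxB : (a, x) ∈ B := by
    rw [mem_suffix hn hL]
    exact not_bef hn max mac (fun h => bx.2.ne (Prod.ext_iff.1 h).2) (fun h => hx (mem_U.2 h))
  have hxA : (x, c) ∈ A := by
    rw [mem_prefix hn hL, cU h.v mac bx.1 bx.2]
    exact hx
  obtain ⟨N, ⟨z1, z⟩, B2, hB, hz1, hN⟩ := exists_first (fun e : Pr n => e.1 = a) B ⟨_, hxB, rfl⟩
  obtain ⟨A1, ⟨y, y2⟩, M, hA, hy2, hM⟩ := exists_last (fun e : Pr n => e.2 = c) A ⟨_, hxA, rfl⟩
  simp only at hz1 hy2 hN hM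
  subst hz1
  subst hy2
  -- now `z1` is the wire `a` and `y2` is the wire `c`
  have zB : (z1, z) ∈ B := by
    rw [hB]
    simp
  have yA : (y, y2) ∈ A := by
    rw [hA]
    simp
  have rz : [(z1, y2), (z1, z)] <+ L := (mem_suffix hn hL _).1 zB
  have ry : [(y, y2), (z1, y2)] <+ L := (mem_prefix hn hL _).1 yA
  have hzc : z ≠ y2 := by
    rintro rfl
    exact bef_asymm hn rz rz
  have hya : y ≠ z1 := by
    rintro rfl
    exact bef_asymm hn ry ry
  have vz := val_bef h.v (bef_mem_right rz)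
  have vy := val_bef h.v (bef_mem_left ry)
  simp only at vz vy
  have az : z1 < z := vz.2.1
  have zc : z < y2 := lt_of_le_of_ne vz.2.2.1 hzc
  have ay : z1 < y := lt_of_le_of_ne vy.1 (Ne.symm hya)
  have yc : y < y2 := vy.2.1
  have zU : z ∉ U z1 y2 L := fun h => bef_asymm hn rz (mem_U.1 h)
  have yU : y ∉ U z1 y2 L := (cU h.v mac ay yc).1 ry
  -- elements of `B` on the wire `a`
  have hBa : ∀ w, (z1, w) ∈ B → w ≠ z → [(z1, z), (z1, w)] <+ L := by
    intro w hw hwz
    have e1 : L = (A ++ (z1, y2) :: N) ++ (z1, z) :: B2 := by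
      rw [hL, hB]
      simp
    rw [← mem_suffix hn e1]
    rw [hB] at hw
    simp only [List.mem_append, List.mem_cons] at hw
    rcases hw with hw | hw | hw
    · exact absurd rfl (hN _ hw)
    · exact absurd (Prod.ext_iff.1 hw).2 hwz
    · exact hw
  have hAc : ∀ w, (w, y2) ∈ A → w ≠ y → [(w, y2), (y, y2)] <+ L := by
    intro w hw hwy
    have e1 : L = A1 ++ (y, y2) :: (M ++ (z1, y2) :: B) := by
      rw [hL, hA]
      simp
    rw [← mem_prefix hn e1]
    rw [hA] at hw
    simp only [List.mem_append, List.mem_cons] at hw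
    rcases hw with hw | hw | hw
    · exact hw
    · exact absurd (Prod.ext_iff.1 hw).1 hwy
    · exact absurd rfl (hM _ hw)
  have zU' : z ∈ U z1 y2 L' := by
    by_cases hxz : x = z
    · rw [← hxz]
      exact hx'
    · exact U_down h.v' hx' (h.ta hzc bx.2.ne (hBa x hxB hxz))
  have yU' : y ∈ U z1 y2 L' := by
    by_contra hc
    have h1 := (cU h.v' mac' ay yc).2 hc
    have hxy : x ≠ y := by
      rintro rfl
      exact hc hx'
    have h2 := h.tc bx.1.ne' hya (hAc x hxA hxy)
    exact (cU h.v' mac' bx.1 bx.2).1 (bef_trans hn' h2 h1) hx'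
  have zcA : (z, y2) ∈ A := by
    rw [mem_prefix hn hL, cU h.v mac az zc]
    exact zU
  have mzc' : (z, y2) ∈ L' := by
    rw [← h.mem, hL]
    exact List.mem_append_left _ zcA
  -- in `L'`: (a, z), (a, c), (z, c)
  have q1 : [(z1, z), (z1, y2)] <+ L' := mem_U.1 zU'
  have q2 : [(z1, y2), (z, y2)] <+ L' := by
    refine not_bef hn' mzc' mac' (fun h => az.ne' (Prod.ext_iff.1 h).1) ?_
    rw [cU h.v' mac' az zc]
    exact not_not.2 zU'
  have hyz : y = z := by
    by_contra hyz
    have r1 := hAc z zcA (Ne.symm hyz)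
    have r1' := h.tc az.ne' hya r1
    have may : (z1, y) ∈ L := (h.mem _).2 (bef_mem_left (mem_U.1 yU'))
    have hyB : (z1, y) ∈ B := by
      rw [mem_suffix hn hL]
      exact not_bef hn may mac (fun h => yc.ne (Prod.ext_iff.1 h).2) (fun h => yU (mem_U.2 h))
    have r2 := hBa y hyB hyz
    have r2' := h.ta hzc yc.ne r2
    rcases lt_or_gt_of_ne hyz with hlt' | hlt'
    · have k1 := (val_bef h.v' (bef_mem_left q1)).2.2.2.2.2 y ay hlt'
      have k2 : [(y, z), (z1, z)] <+ L' := by
        by_contra hc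
        exact bef_asymm hn' r2' (k1.2 hc)
      have k3 := bef_trans hn' (bef_trans hn' k2 q1) q2
      have k4 := ((val_bef h.v' mzc').2.2.2.2.1 y ay.le hlt').1 k3
      exact bef_asymm hn' r1' k4
    · have mzc : (z, y2) ∈ L := (h.mem _).2 mzc'
      have k1 := (val_bef h.v mzc).2.2.2.2.2 y hlt' yc
      have k2 : [(z, y), (z, y2)] <+ L := k1.2 (bef_asymm hn r1)
      have k3 := bef_trans hn (bef_trans hn k2 ((mem_prefix hn hL _).1 zcA)) rz
      have k4 := ((val_bef h.v (bef_mem_right rz)).2.2.2.1 y hlt' yc.le).1 k3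
      exact bef_asymm hn r2 k4
  subst hyz
  -- `y` is the wire `b`
  have key : ∀ e : Pr n, [(y, y2), e] <+ L → [e, (z1, y)] <+ L → e.1 ≠ z1 → e.2 ≠ y2 →
      ¬ (e.1 = y ∨ e.2 = y) := by
    intro e h1 h2 h3 h4 h5
    have h6 : [(y, y2), e] <+ L' := h.tra (x := y) (Or.inl rfl) h5 hya h3 h1
    have h7 : [e, (z1, y)] <+ L' := h.trc (x := y) h5 (Or.inr rfl) h4 hzc h2
    exact bef_asymm hn' (bef_trans hn' h6 h7) (bef_trans hn' q1 q2)
  have hLL : L = A1 ++ (y, y2) :: (M ++ (z1, y2) :: (N ++ (z1, y) :: B2)) := by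
    rw [hL, hA, hB]
    simp
  have hLL2 : L = (A1 ++ (y, y2) :: (M ++ (z1, y2) :: N)) ++ (z1, y) :: B2 := by
    rw [hLL]
    simp
  have hDM : ∀ e ∈ M, Dis (y, y2) e := by
    intro e he
    have s1 : [(y, y2), e] <+ L := (mem_suffix hn hLL e).1 (by simp [he])
    have s2 : [e, (z1, y)] <+ L := (mem_prefix hn hLL2 e).1 (by simp [he])
    have ve := val_bef h.v (bef_mem_right s1)
    have e2 := hM e he
    have hb : ¬ (e.1 = y ∨ e.2 = y) := by
      intro hb
      by_cases e1 : e.1 = z1
      · have : e = (z1, y) := by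
          rcases hb with hb | hb
          · exact absurd (e1.symm.trans hb) az.ne
          · exact Prod.ext e1 hb
        rw [this] at s2
        exact bef_asymm hn s2 s2
      · exact key e s1 s2 e1 e2 hb
    refine ⟨fun h => hb (Or.inl h), ?_, fun h => hb (Or.inr h), e2⟩
    intro h
    have h' : e.1 = y2 := h
    have := ve.2.1.trans_le ve.2.2.1
    rw [h'] at this
    exact lt_irrefl _ this
  have hDN : ∀ e ∈ N, Dis (z1, y) e := by
    intro e he
    have s1 : [(y, y2), e] <+ L := (mem_suffix hn hLL e).1 (by simp [he])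
    have s2 : [e, (z1, y)] <+ L := (mem_prefix hn hLL2 e).1 (by simp [he])
    have ve := val_bef h.v (bef_mem_right s1)
    have e1 := hN e he
    have hb : ¬ (e.1 = y ∨ e.2 = y) := by
      intro hb
      by_cases e2 : e.2 = y2
      · have : e = (y, y2) := by
          rcases hb with hb | hb
          · exact Prod.ext hb e2
          · exact absurd (hb.symm.trans e2) yc.ne
        rw [this] at s1
        exact bef_asymm hn s1 s1
      · exact key e s1 s2 e1 e2 hb
    refine ⟨e1, fun h => hb (Or.inl h), ?_, fun h => hb (Or.inr h)⟩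
    intro h
    have h' : e.2 = z1 := h
    have := ve.1.trans_lt ve.2.1
    rw [h'] at this
    exact lt_irrefl _ this
  have hV : Val z1 y2 ((A1 ++ M) ++ (z1, y) :: (z1, y2) :: (y, y2) :: (N ++ B2)) := by
    apply val_flip az yc hDM hDN
    rw [← hLL]
    exact h.v
  have hE := hE1 n q z1 y y2 (A1 ++ M) (N ++ B2) hq az yc hV
  have hEq : Eqv L ((A1 ++ M) ++ (y, y2) :: (z1, y2) :: (z1, y) :: (N ++ B2)) := by
    intro w
    have s1 := loc_move w (y, y2) M ((z1, y2) :: (N ++ (z1, y) :: B2)) hDM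
    have s2 := loc_move w (z1, y) N B2 hDN
    have t1 : loc w L = loc w A1 ++ (loc w M ++ (loc w [(y, y2)] ++ (loc w [(z1, y2)] ++
        loc w ((z1, y) :: (N ++ B2))))) := by
      rw [hLL, loc_append, ← s1, loc_append, loc_cons w (y, y2), loc_cons w (z1, y2), s2]
    rw [t1, loc_append w (A1 ++ M), loc_append w A1 M, loc_cons w (y, y2) ((z1, y2) :: _),
      loc_cons w (z1, y2) ((z1, y) :: _), List.append_assoc]
  have hn2 := val_nodup hV
  refine ⟨_, ⟨hV, h.v', ?_, ?_, ?_⟩, ?_, ?_⟩
  · intro e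
    rw [← h.mem, hLL]
    simp only [List.mem_append, List.mem_cons]
    tauto
  · intro w
    rw [← h.fa w, loc_filter w _ L, hEq w, ← loc_filter]
    congr 1
    simp only [List.filter_append, List.filter_cons]
    simp [hya]
  · intro w
    rw [← h.fc w, loc_filter w _ L, hEq w, ← loc_filter]
    congr 1
    simp only [List.filter_append, List.filter_cons]
    simp [hzc]
  · have hU : U z1 y2 ((A1 ++ M) ++ (z1, y) :: (z1, y2) :: (y, y2) :: (N ++ B2)) =
        insert y (U z1 y2 L) := by
      ext w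
      have e2 : (A1 ++ M) ++ (z1, y) :: (z1, y2) :: (y, y2) :: (N ++ B2) =
        (A1 ++ M ++ [(z1, y)]) ++ (z1, y2) :: ((y, y2) :: (N ++ B2)) := by simp
      have e3 : L = (A1 ++ (y, y2) :: M) ++ (z1, y2) :: (N ++ (z1, y) :: B2) := by
        rw [hLL]
        simp
      rw [Finset.mem_insert, mem_U, mem_U, ← mem_prefix hn2 e2, ← mem_prefix hn e3]
      simp only [List.mem_append, List.mem_cons, List.not_mem_nil, or_false]
      have k1 : ((z1, w) : Pr n) ≠ (y, y2) := fun h => az.ne (Prod.ext_iff.1 h).1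
      have k2 : ((z1, w) : Pr n) = (z1, y) ↔ w = y :=
        ⟨fun h => (Prod.ext_iff.1 h).2, fun h => by rw [h]⟩
      rw [k2]
      tauto
    rw [hU, Finset.card_insert_of_notMem zU]
  · rw [fold_eqv q L _ _ hEq]
    exact hE

theorem main_lt (hE1 : S_E1) {a c : Fin (n + 1)} {q : ℤ} (hq : 0 < q) (L' : List (Pr n)) :
    ∀ (m : ℕ) (L : List (Pr n)), Sit a c L L' → (U a c L).card + (m + 1) = (U a c L').card →
      L'.foldl (vstep q) (Pi.single a 1) c < L.foldl (vstep q) (Pi.single a 1) c := by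
  intro m
  induction m with
  | zero =>
    intro L h hc
    have hac : a < c := by
      obtain ⟨x, hx, -⟩ := Finset.exists_mem_notMem_of_card_lt_card
        (show (U a c L).card < (U a c L').card by omega)
      have := U_btw h.v' hx
      exact this.1.trans this.2
    obtain ⟨L2, h2, h3, h4⟩ := h.step hE1 hq (by omega)
    have h5 := h2.eqv hac (by omega)
    rw [← fold_eqv q L2 L' _ h5]
    exact h4
  | succ m ih =>
    intro L h hc
    obtain ⟨L2, h2, h3, h4⟩ := h.step hE1 hq (by omega)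
    exact (ih L2 h2 (by omega)).trans h4

theorem t_E2 : S_E1 → S_E2 := by
  intro hE1 n q a c L L' hq hac hv hv' hmem hfa hfc hfold
  have h : Sit a c L L' := ⟨hv, hv', hmem, hfa, hfc⟩
  rcases lt_trichotomy (U a c L).card (U a c L').card with hlt | heq | hlt
  · exfalso
    have := main_lt hE1 hq L' ((U a c L').card - (U a c L).card - 1) L h (by omega)
    exact this.ne' hfold
  · exact h.eqv hac heq
  · exfalso
    have := main_lt hE1 hq L ((U a c L).card - (U a c L').card - 1) L' h.symm (by omega)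
    exact this.ne hfold

end Pool.Agent.X85.BS
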