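import Pool.Agent.X85.BS.Ord

/-! Valid sequences: order relations, invariance of the walk under commutations, and the flip. -/

set_option autoImplicit false

namespace Pool.Agent.X85.BS

open Pool.Agent.X189.BS List

abbrev Pr (n : ℕ) : Type := Fin (n + 1) × Fin (n + 1)

variable {n : ℕ}

/-- the wires of `f` and `e` are different -/
def Dis (e f : Pr n) : Prop := f.1 ≠ e.1 ∧ f.1 ≠ e.2 ∧ f.2 ≠ e.1 ∧ f.2 ≠ e.2

theorem val_nodup {a c : Fin (n + 1)} {L : List (Pr n)} (h : Val a c L) : L.Nodup :=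
  nodup_of fun P e S hL => (h P e S hL).2.2.2.1

theorem val_bef {a c : Fin (n + 1)} {L : List (Pr n)} (h : Val a c L) {e : Pr n} (he : e ∈ L) :
    a ≤ e.1 ∧ e.1 < e.2 ∧ e.2 ≤ c ∧
    (∀ z, e.2 < z → z ≤ c → ([(e.2, z), e] <+ L ↔ [(e.1, z), e] <+ L)) ∧
    (∀ z, a ≤ z → z < e.1 → ([(z, e.1), e] <+ L ↔ [(z, e.2), e] <+ L)) ∧
    (∀ z, e.1 < z → z < e.2 → ([(e.1, z), e] <+ L ↔ ¬ [(z, e.2), e] <+ L)) := by
  have hn := val_nodup h
  obtain ⟨P, S, hL⟩ := List.append_of_mem he
  obtain ⟨h1, h2, h3, -, h5, h6, h7⟩ := h P e S hL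
  refine ⟨h1, h2, h3, fun z hz hz' => ?_, fun z hz hz' => ?_, fun z hz hz' => ?_⟩
  · rw [← mem_prefix hn hL, ← mem_prefix hn hL]
    exact h5 z hz hz'
  · rw [← mem_prefix hn hL, ← mem_prefix hn hL]
    exact h6 z hz hz'
  · rw [← mem_prefix hn hL, ← mem_prefix hn hL]
    exact h7 z hz hz'

/-! ### the walk -/

theorem vstep_comm (q : ℤ) (X : Fin (n + 1) → ℤ) {e f : Pr n} (h : Dis e f) :
    vstep q (vstep q X e) f = vstep q (vstep q X f) e := by
  obtain ⟨h1, h2, h3, h4⟩ := h
  funext z
  unfold vstep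
  have h1' := Ne.symm h1
  have h2' := Ne.symm h2
  have h3' := Ne.symm h3
  have h4' := Ne.symm h4
  by_cases ze : z = e.1 ∨ z = e.2 <;> by_cases zf : z = f.1 ∨ z = f.2
  · exfalso
    rcases ze with rfl | rfl <;> rcases zf with h | h <;> simp_all
  · simp only [ze, zf, if_true, if_false, h1', h2', h3', h4', or_self, true_or, or_true]
    ring
  · simp only [ze, zf, if_true, if_false, h1, h2, h3, h4, or_self, true_or, or_true]
    ring
  · simp only [ze, zf, if_false]

theorem fold_move (q : ℤ) (X : Fin (n + 1) → ℤ) (e : Pr n) (M R : List (Pr n))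
    (h : ∀ f ∈ M, Dis e f) :
    (M ++ e :: R).foldl (vstep q) X = (e :: (M ++ R)).foldl (vstep q) X := by
  induction M generalizing X with
  | nil => rfl
  | cons f M ih =>
    have h1 := ih (vstep q X f) fun g hg => h g (List.mem_cons_of_mem _ hg)
    simp only [List.cons_append, List.foldl_cons] at h1 ⊢
    rw [h1, vstep_comm q X (h f List.mem_cons_self)]

theorem loc_move (x : Fin (n + 1)) (e : Pr n) (M R : List (Pr n))
    (h : ∀ f ∈ M, Dis e f) : loc x (M ++ e :: R) = loc x (e :: (M ++ R)) := by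
  unfold loc
  by_cases hx : e.1 = x ∨ e.2 = x
  · have hM : M.filter (fun e => decide (e.1 = x ∨ e.2 = x)) = [] := by
      rw [List.filter_eq_nil_iff]
      intro f hf hc
      obtain ⟨h1, h2, h3, h4⟩ := h f hf
      have hc' : f.1 = x ∨ f.2 = x := by simpa using hc
      rcases hx with rfl | rfl <;> rcases hc' with h | h <;> simp_all
    rw [List.filter_append, hM, List.nil_append, List.filter_cons, List.filter_cons,
      List.filter_append, hM, List.nil_append]
  · rw [List.filter_append, List.filter_cons, List.filter_cons, List.filter_append]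
    simp [hx]

theorem fold_eqv (q : ℤ) : ∀ (L L' : List (Pr n)) (X : Fin (n + 1) → ℤ),
    Eqv L L' → L.foldl (vstep q) X = L'.foldl (vstep q) X := by
  intro L
  induction L with
  | nil =>
    intro L' X h
    have : L' = [] := by
      rw [List.eq_nil_iff_forall_not_mem]
      intro e he
      have h1 := h e.1
      have h2 : e ∈ loc e.1 L' := by
        unfold loc
        rw [List.mem_filter]
        exact ⟨he, by simp⟩
      rw [← h1] at h2
      simp [loc] at h2
    rw [this]
  | cons e L ih =>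
    intro L' X h
    have h1 : ∀ x, (e.1 = x ∨ e.2 = x) → loc x L' = e :: loc x L := by
      intro x hx
      rw [← h x]
      unfold loc
      rw [List.filter_cons_of_pos (by simpa using hx)]
    have he : e ∈ L' := by
      have : e ∈ loc e.1 L' := by
        rw [h1 e.1 (Or.inl rfl)]
        exact List.mem_cons_self
      exact (List.mem_filter.1 this).1
    obtain ⟨P, S, hPS, heP⟩ : ∃ P S, L' = P ++ e :: S ∧ e ∉ P := by
      obtain ⟨P, S, h1, h2⟩ := List.append_of_mem he |>.elim fun _ _ => List.eq_append_cons_of_mem he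
      exact ⟨P, S, h1, h2⟩
    have hloc : ∀ x, (e.1 = x ∨ e.2 = x) → loc x P = [] := by
      intro x hx
      have h2 := h1 x hx
      rw [hPS] at h2
      unfold loc at h2 ⊢
      rw [List.filter_append] at h2
      cases hP : P.filter (fun e => decide (e.1 = x ∨ e.2 = x)) with
      | nil => rfl
      | cons f F =>
        exfalso
        rw [hP, List.cons_append] at h2
        have h3 := (List.cons.inj h2).1
        have h4 : f ∈ P.filter (fun e => decide (e.1 = x ∨ e.2 = x)) := by
          rw [hP]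
          exact List.mem_cons_self
        rw [h3] at h4
        exact heP (List.mem_filter.1 h4).1
    have hdis : ∀ f ∈ P, Dis e f := by
      intro f hf
      have h5 : ∀ x, (e.1 = x ∨ e.2 = x) → ¬ (f.1 = x ∨ f.2 = x) := by
        intro x hx hfx
        have h6 : f ∈ loc x P := by
          unfold loc
          rw [List.mem_filter]
          exact ⟨hf, by simpa using hfx⟩
        rw [hloc x hx] at h6
        simp at h6
      have h6 := h5 e.1 (Or.inl rfl)
      have h7 := h5 e.2 (Or.inr rfl)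
      refine ⟨fun h => h6 (Or.inl h), fun h => h7 (Or.inl h), fun h => h6 (Or.inr h),
        fun h => h7 (Or.inr h)⟩
    have hE : Eqv L (P ++ S) := by
      intro x
      have h8 := h x
      rw [hPS, loc_move x e P S hdis] at h8
      unfold loc at h8 ⊢
      rw [List.filter_cons, List.filter_cons] at h8
      split_ifs at h8 with hc
      · exact (List.cons.inj h8).2
      · exact h8
    rw [hPS, fold_move q X e P S hdis, List.foldl_cons, List.foldl_cons]
    exact ih (P ++ S) _ hE

/-! ### the flip -/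

/-- the conditions on the crossing `e`, if `Q` is the set of the crossings before -/
def Good (a c : Fin (n + 1)) (Q : Pr n → Prop) (e : Pr n) : Prop :=
  a ≤ e.1 ∧ e.1 < e.2 ∧ e.2 ≤ c ∧ ¬ Q e ∧
    (∀ z, e.2 < z → z ≤ c → (Q (e.2, z) ↔ Q (e.1, z))) ∧
    (∀ z, a ≤ z → z < e.1 → (Q (z, e.1) ↔ Q (z, e.2))) ∧
    (∀ z, e.1 < z → z < e.2 → (Q (e.1, z) ↔ ¬ Q (z, e.2)))

def VF (a c : Fin (n + 1)) : (Pr n → Prop) → List (Pr n) → Prop
  | _, [] => True
  | Q, e :: L => Good a c Q e ∧ VF a c (fun f => Q f ∨ f = e) L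

theorem VF_iff (a c : Fin (n + 1)) (Q : Pr n → Prop) (L : List (Pr n)) :
    VF a c Q L ↔ ∀ P e S, L = P ++ e :: S → Good a c (fun f => Q f ∨ f ∈ P) e := by
  induction L generalizing Q with
  | nil => simp [VF]
  | cons x L ih =>
    rw [VF, ih]
    constructor
    · rintro ⟨h1, h2⟩ P e S hL
      cases P with
      | nil =>
        simp only [List.nil_append, List.cons.injEq] at hL
        obtain ⟨rfl, rfl⟩ := hL
        simpa using h1
      | cons y P =>
        simp only [List.cons_append, List.cons.injEq] at hL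
        obtain ⟨rfl, hL⟩ := hL
        have := h2 P e S hL
        have hQ : (fun f => Q f ∨ f ∈ x :: P) = fun f => (Q f ∨ f = x) ∨ f ∈ P := by
          funext f
          simp only [List.mem_cons, or_assoc]
        rw [hQ]
        exact this
    · intro h
      refine ⟨by simpa using h [] x L rfl, ?_⟩
      intro P e S hL
      have := h (x :: P) e S (by rw [hL]; rfl)
      have hQ : (fun f => (Q f ∨ f = x) ∨ f ∈ P) = fun f => Q f ∨ f ∈ x :: P := by
        funext f
        simp only [List.mem_cons, or_assoc]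
      rw [hQ]
      exact this

theorem val_iff (a c : Fin (n + 1)) (L : List (Pr n)) : Val a c L ↔ VF a c (fun _ => False) L := by
  rw [VF_iff]
  simp only [false_or]
  rfl

theorem VF_append (a c : Fin (n + 1)) (Q : Pr n → Prop) (A B : List (Pr n)) :
    VF a c Q (A ++ B) ↔ VF a c Q A ∧ VF a c (fun f => Q f ∨ f ∈ A) B := by
  induction A generalizing Q with
  | nil => simp [VF]
  | cons x A ih =>
    rw [List.cons_append, VF, VF, ih]
    have hQ : (fun f => (Q f ∨ f = x) ∨ f ∈ A) = fun f => Q f ∨ f ∈ x :: A := by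
      funext f
      simp only [List.mem_cons, or_assoc]
    rw [hQ, and_assoc]

theorem Good_congr {a c : Fin (n + 1)} {Q Q' : Pr n → Prop} {e : Pr n}
    (h : ∀ f, ¬ Dis e f → (Q f ↔ Q' f)) (hg : Good a c Q e) : Good a c Q' e := by
  obtain ⟨h1, h2, h3, h4, h5, h6, h7⟩ := hg
  have t1 : ∀ z, ¬ Dis e (e.2, z) := fun z hd => hd.2.1 rfl
  have t2 : ∀ z, ¬ Dis e (e.1, z) := fun z hd => hd.1 rfl
  have t3 : ∀ z, ¬ Dis e (z, e.1) := fun z hd => hd.2.2.1 rfl
  have t4 : ∀ z, ¬ Dis e (z, e.2) := fun z hd => hd.2.2.2 rfl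
  have t5 : ¬ Dis e e := fun hd => hd.1 rfl
  refine ⟨h1, h2, h3, by rwa [← h e t5], fun z hz hz' => ?_, fun z hz hz' => ?_,
    fun z hz hz' => ?_⟩
  · rw [← h _ (t1 z), ← h _ (t2 z)]
    exact h5 z hz hz'
  · rw [← h _ (t3 z), ← h _ (t4 z)]
    exact h6 z hz hz'
  · rw [← h _ (t2 z), ← h _ (t4 z)]
    exact h7 z hz hz'

theorem VF_congr {a c : Fin (n + 1)} {Q Q' : Pr n → Prop} {L : List (Pr n)}
    (h : ∀ e ∈ L, ∀ f, ¬ Dis e f → (Q f ↔ Q' f)) (hv : VF a c Q L) : VF a c Q' L := by
  induction L generalizing Q Q' with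
  | nil => trivial
  | cons x L ih =>
    obtain ⟨h1, h2⟩ := hv
    refine ⟨Good_congr (h x List.mem_cons_self) h1, ih ?_ h2⟩
    intro e he f hf
    rw [h e (List.mem_cons_of_mem _ he) f hf]

end Pool.Agent.X85.BS
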