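import Pool.Agent.X189.BS.Stm

/-! The order of the elements of a list without repetitions. -/

set_option autoImplicit false

namespace Pool.Agent.X85.BS

open Pool.Agent.X189.BS List

theorem bef_idx {α : Type} [DecidableEq α] {L : List α} (hn : L.Nodup) (e f : α) :
    [e, f] <+ L ↔ f ∈ L ∧ L.idxOf e < L.idxOf f := by
  induction L with
  | nil => simp
  | cons x L ih =>
    have hn' := List.nodup_cons.1 hn
    have ih' := ih hn'.2
    rw [List.sublist_cons_iff]
    by_cases hex : x = e
    · subst hex
      by_cases hfx : x = f
      · subst hfx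
        constructor
        · rintro (h | ⟨r, h1, h2⟩)
          · exact absurd (h.subset (by simp)) hn'.1
          · simp only [List.cons.injEq, true_and] at h1
            subst h1
            exact absurd (h2.subset (by simp)) hn'.1
        · rintro ⟨-, h⟩
          exact absurd h (lt_irrefl _)
      · rw [List.idxOf_cons_self, List.idxOf_cons_ne _ hfx]
        constructor
        · rintro (h | ⟨r, h1, h2⟩)
          · exact ⟨List.mem_cons_of_mem _ (h.subset (by simp)), Nat.succ_pos _⟩
          · simp only [List.cons.injEq, true_and] at h1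
            subst h1
            exact ⟨List.mem_cons_of_mem _ (h2.subset (by simp)), Nat.succ_pos _⟩
        · rintro ⟨h, -⟩
          right
          exact ⟨[f], rfl, List.singleton_sublist.2 ((List.mem_cons.1 h).resolve_left (Ne.symm hfx))⟩
    · by_cases hfx : x = f
      · subst hfx
        rw [List.idxOf_cons_self]
        constructor
        · rintro (h | ⟨r, h1, h2⟩)
          · exact absurd (h.subset (by simp)) hn'.1
          · simp only [List.cons.injEq] at h1
            exact absurd h1.1.symm hex
        · rintro ⟨-, h⟩
          omega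
      · rw [List.idxOf_cons_ne _ hex, List.idxOf_cons_ne _ hfx, List.mem_cons]
        constructor
        · rintro (h | ⟨r, h1, h2⟩)
          · have := ih'.1 h
            exact ⟨Or.inr this.1, by omega⟩
          · simp only [List.cons.injEq] at h1
            exact absurd h1.1.symm hex
        · rintro ⟨h, h2⟩
          left
          exact ih'.2 ⟨h.resolve_left (Ne.symm hfx), by omega⟩

section
variable {α : Type} [DecidableEq α] {L : List α}

theorem bef_mem_left {e f : α} (h : [e, f] <+ L) : e ∈ L := h.subset (by simp)

theorem bef_mem_right {e f : α} (h : [e, f] <+ L) : f ∈ L := h.subset (by simp)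

theorem bef_asymm (hn : L.Nodup) {e f : α} (h : [e, f] <+ L) : ¬ [f, e] <+ L := by
  intro h'
  have h1 := ((bef_idx hn _ _).1 h).2
  have h2 := ((bef_idx hn _ _).1 h').2
  omega

theorem bef_trans (hn : L.Nodup) {e f g : α} (h : [e, f] <+ L) (h' : [f, g] <+ L) :
    [e, g] <+ L := by
  have h1 := ((bef_idx hn _ _).1 h).2
  have h2 := ((bef_idx hn _ _).1 h').2
  exact (bef_idx hn _ _).2 ⟨bef_mem_right h', by omega⟩

theorem bef_total (hn : L.Nodup) {e f : α} (he : e ∈ L) (hf : f ∈ L) (hne : e ≠ f) :
    [e, f] <+ L ∨ [f, e] <+ L := by
  rw [bef_idx hn, bef_idx hn]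
  have : L.idxOf e ≠ L.idxOf f := by
    intro h
    exact hne (List.idxOf_inj he |>.1 h)
  rcases lt_or_gt_of_ne this with h | h
  · exact Or.inl ⟨hf, h⟩
  · exact Or.inr ⟨he, h⟩

theorem not_bef (hn : L.Nodup) {e f : α} (he : e ∈ L) (hf : f ∈ L) (hne : e ≠ f)
    (h : ¬ [e, f] <+ L) : [f, e] <+ L := (bef_total hn he hf hne).resolve_left h

theorem mem_prefix (hn : L.Nodup) {P S : List α} {e : α} (h : L = P ++ e :: S) (f : α) :
    f ∈ P ↔ [f, e] <+ L := by
  subst h
  constructor
  · intro hf
    have := List.Sublist.append (List.singleton_sublist.2 hf)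
      (List.singleton_sublist.2 (List.mem_cons_self (a := e) (l := S)))
    simpa using this
  · intro hf
    by_contra hc
    have hnn := List.nodup_append.1 hn
    have heP : e ∉ P := fun he => hnn.2.2 e he e List.mem_cons_self rfl
    have h2 := (bef_idx hn _ _).1 hf
    rw [List.idxOf_append_of_notMem heP, List.idxOf_append_of_notMem hc,
      List.idxOf_cons_self] at h2
    omega

theorem mem_suffix (hn : L.Nodup) {P S : List α} {e : α} (h : L = P ++ e :: S) (f : α) :
    f ∈ S ↔ [e, f] <+ L := by
  constructor
  · intro hf
    subst h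
    have : [e, f] <+ e :: S := (List.singleton_sublist.2 hf).cons_cons e
    exact this.trans (List.sublist_append_right _ _)
  · intro hf
    have hfL : f ∈ L := bef_mem_right hf
    have h1 : f ∉ P := fun hP => bef_asymm hn hf ((mem_prefix hn h f).1 hP)
    have h2 : f ≠ e := by
      rintro rfl
      exact bef_asymm hn hf hf
    rw [h] at hfL
    simp only [List.mem_append, List.mem_cons] at hfL
    tauto

theorem nodup_of {L : List α} (h : ∀ P e S, L = P ++ e :: S → e ∉ P) : L.Nodup := by
  induction L using List.reverseRecOn with
  | nil => exact List.nodup_nil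
  | append_singleton L x ih =>
    have h1 : L.Nodup := ih fun P e S hL => h P e (S ++ [x]) (by rw [hL]; simp)
    have h2 : x ∉ L := h L x [] rfl
    rw [List.nodup_append]
    refine ⟨h1, List.nodup_singleton _, ?_⟩
    intro y hy z hz
    rw [List.mem_singleton] at hz
    subst hz
    rintro rfl
    exact h2 hy

/-- lists without repetitions with the same elements in the same order are equal -/
theorem eq_of_order {M M' : List α} (hM : M.Nodup) (hM' : M'.Nodup) (hmem : ∀ e, e ∈ M ↔ e ∈ M')
    (h : ∀ e f, [e, f] <+ M → [e, f] <+ M') : M = M' := by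
  refine List.Perm.eq_of_pairwise (le := fun e f => [e, f] <+ M') ?_ ?_ ?_
    ((List.perm_ext_iff_of_nodup hM hM').2 hmem)
  · intro e f _ _ h1 h2
    exact absurd h2 (bef_asymm hM' h1)
  · rw [List.pairwise_iff_forall_sublist]
    intro e f hef
    exact h e f hef
  · rw [List.pairwise_iff_forall_sublist]
    intro e f hef
    exact hef

theorem bef_filter {p : α → Bool} {e f : α} (h : [e, f] <+ L) (he : p e) (hf : p f) :
    [e, f] <+ L.filter p := by
  have := h.filter p
  simpa [List.filter_cons, he, hf] using this

theorem bef_of_filter {p : α → Bool} {e f : α} (h : [e, f] <+ L.filter p) : [e, f] <+ L :=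
  h.trans List.filter_sublist

end

end Pool.Agent.X85.BS
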