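import Pool.Agent.X85.BS.ValFlip

/-! Two sequences with the same set `U` have the same order. -/

set_option autoImplicit false

namespace Pool.Agent.X85.BS

open Pool.Agent.X189.BS List

variable {n : ℕ}

/-- two sequences to be compared -/
structure Sit (a c : Fin (n + 1)) (L L' : List (Pr n)) : Prop where
  v : Val a c L
  v' : Val a c L'
  mem : ∀ e, e ∈ L ↔ e ∈ L'
  fa : Eqv (L.filter fun e => e.1 ≠ a) (L'.filter fun e => e.1 ≠ a)
  fc : Eqv (L.filter fun e => e.2 ≠ c) (L'.filter fun e => e.2 ≠ c)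

theorem Sit.symm {a c : Fin (n + 1)} {L L' : List (Pr n)} (h : Sit a c L L') : Sit a c L' L :=
  ⟨h.v', h.v, fun e => (h.mem e).symm, fun x => (h.fa x).symm, fun x => (h.fc x).symm⟩

theorem Sit.tra {a c : Fin (n + 1)} {L L' : List (Pr n)} (h : Sit a c L L') {e f : Pr n}
    {x : Fin (n + 1)} (hx : e.1 = x ∨ e.2 = x) (hx' : f.1 = x ∨ f.2 = x) (he : e.1 ≠ a)
    (hf : f.1 ≠ a) (hef : [e, f] <+ L) : [e, f] <+ L' := by
  have h1 : [e, f] <+ loc x (L.filter fun e => e.1 ≠ a) := by
    unfold loc
    exact bef_filter (bef_filter hef (by simpa using he) (by simpa using hf))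
      (by simpa using hx) (by simpa using hx')
  rw [h.fa x] at h1
  exact bef_of_filter (bef_of_filter h1)

theorem Sit.trc {a c : Fin (n + 1)} {L L' : List (Pr n)} (h : Sit a c L L') {e f : Pr n}
    {x : Fin (n + 1)} (hx : e.1 = x ∨ e.2 = x) (hx' : f.1 = x ∨ f.2 = x) (he : e.2 ≠ c)
    (hf : f.2 ≠ c) (hef : [e, f] <+ L) : [e, f] <+ L' := by
  have h1 : [e, f] <+ loc x (L.filter fun e => e.2 ≠ c) := by
    unfold loc
    exact bef_filter (bef_filter hef (by simpa using he) (by simpa using hf))
      (by simpa using hx) (by simpa using hx')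
  rw [h.fc x] at h1
  exact bef_of_filter (bef_of_filter h1)

/-- the wires which cross `a` before `c` does -/
noncomputable def U (a c : Fin (n + 1)) (L : List (Pr n)) : Finset (Fin (n + 1)) := by
  classical
  exact Finset.univ.filter fun x => [(a, x), (a, c)] <+ L

theorem mem_U {a c x : Fin (n + 1)} {L : List (Pr n)} : x ∈ U a c L ↔ [(a, x), (a, c)] <+ L := by
  classical
  unfold U
  simp

/-- basic facts on a wire `x` between `a` and `c` -/
theorem U_btw {a c x : Fin (n + 1)} {L : List (Pr n)} (hv : Val a c L) (hx : x ∈ U a c L) :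
    a < x ∧ x < c := by
  rw [mem_U] at hx
  have hn := val_nodup hv
  have h1 := val_bef hv (bef_mem_left hx)
  refine ⟨h1.2.1, lt_of_le_of_ne h1.2.2.1 ?_⟩
  intro hxc
  have hxc' : x = c := hxc
  subst hxc'
  exact bef_asymm hn hx hx

/-- `(x, c)` is before `(a, c)` iff `(a, x)` is not -/
theorem cU {a c x : Fin (n + 1)} {L : List (Pr n)} (hv : Val a c L) (hac : (a, c) ∈ L)
    (h1 : a < x) (h2 : x < c) : [(x, c), (a, c)] <+ L ↔ x ∉ U a c L := by
  have := (val_bef hv hac).2.2.2.2.2 x h1 h2
  rw [mem_U]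
  tauto

/-- down-closedness along the wire `a` -/
theorem U_down {a c x y : Fin (n + 1)} {L : List (Pr n)} (hv : Val a c L) (hx : x ∈ U a c L)
    (hy : [(a, y), (a, x)] <+ L) : y ∈ U a c L := by
  rw [mem_U] at *
  exact bef_trans (val_nodup hv) hy hx

/-- transfer of the order along the wire `a` -/
theorem Sit.ta {a c : Fin (n + 1)} {L L' : List (Pr n)} (h : Sit a c L L') {x y : Fin (n + 1)}
    (hx : x ≠ c) (hy : y ≠ c) (hxy : [(a, x), (a, y)] <+ L) : [(a, x), (a, y)] <+ L' :=
  h.trc (x := a) (Or.inl rfl) (Or.inl rfl) hx hy hxy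

/-- transfer of the order along the wire `c` -/
theorem Sit.tc {a c : Fin (n + 1)} {L L' : List (Pr n)} (h : Sit a c L L') {x y : Fin (n + 1)}
    (hx : x ≠ a) (hy : y ≠ a) (hxy : [(x, c), (y, c)] <+ L) : [(x, c), (y, c)] <+ L' :=
  h.tra (x := c) (Or.inr rfl) (Or.inr rfl) hx hy hxy

/-- the sets `U` are comparable -/
theorem Sit.sub_or {a c : Fin (n + 1)} {L L' : List (Pr n)} (h : Sit a c L L') :
    U a c L ⊆ U a c L' ∨ U a c L' ⊆ U a c L := by
  by_cases h1 : U a c L ⊆ U a c L'
  · exact Or.inl h1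
  · right
    obtain ⟨x, hx, hx'⟩ := Finset.not_subset.1 h1
    intro y hy
    have hn := val_nodup h.v
    have hn' := val_nodup h.v'
    have bx := U_btw h.v hx
    have by' := U_btw h.v' hy
    by_cases hxy : y = x
    · rw [hxy]
      exact hx
    have m1 : (a, x) ∈ L := bef_mem_left (mem_U.1 hx)
    have m2 : (a, y) ∈ L := (h.mem _).2 (bef_mem_left (mem_U.1 hy))
    rcases bef_total hn m2 m1 (fun h => hxy (Prod.ext_iff.1 h).2) with h2 | h2
    · exact U_down h.v hx h2
    · exfalso
      exact hx' (U_down h.v' hy (h.ta bx.2.ne by'.2.ne h2))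

theorem Sit.eq_of_card {a c : Fin (n + 1)} {L L' : List (Pr n)} (h : Sit a c L L')
    (hc : (U a c L).card = (U a c L').card) : U a c L = U a c L' := by
  rcases h.sub_or with h1 | h1
  · exact Finset.eq_of_subset_of_card_le h1 hc.ge
  · exact (Finset.eq_of_subset_of_card_le h1 hc.le).symm

/-- `L` and `L'` with the same sets `U`: same order -/
theorem Sit.ord {a c : Fin (n + 1)} {L L' : List (Pr n)} (h : Sit a c L L') (hac : a < c)
    (hU : U a c L = U a c L') {e f : Pr n} {x : Fin (n + 1)} (hx : e.1 = x ∨ e.2 = x)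
    (hx' : f.1 = x ∨ f.2 = x) (hef : [e, f] <+ L) : [e, f] <+ L' := by
  have hn := val_nodup h.v
  have hn' := val_nodup h.v'
  by_cases h1 : e.1 ≠ a ∧ f.1 ≠ a
  · exact h.tra hx hx' h1.1 h1.2 hef
  by_cases h2 : e.2 ≠ c ∧ f.2 ≠ c
  · exact h.trc hx hx' h2.1 h2.2 hef
  obtain ⟨e1, e2⟩ := e
  obtain ⟨f1, f2⟩ := f
  simp only at hx hx' h1 h2
  have ve := val_bef h.v (bef_mem_left hef)
  have vf := val_bef h.v (bef_mem_right hef)
  simp only at ve vf
  have hne : ¬ (e1 = f1 ∧ e2 = f2) := by
    rintro ⟨rfl, rfl⟩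
    exact bef_asymm hn hef hef
  have m1 := (h.mem _).1 (bef_mem_left hef)
  have m2 := (h.mem _).1 (bef_mem_right hef)
  by_cases he1 : e1 = a
  · subst he1
    by_cases he2 : e2 = c
    · subst he2
      -- e = (a, c)
      by_cases hf1 : f1 = e1
      · subst hf1
        have hf2 : f2 ≠ e2 := fun h => hne ⟨rfl, h.symm⟩
        have : f2 ∉ U f1 e2 L := fun hU' => bef_asymm hn hef (mem_U.1 hU')
        rw [hU, mem_U] at this
        exact not_bef hn' m2 m1 (fun h => hf2 (Prod.ext_iff.1 h).2) this
      · have hf2 : f2 = e2 := by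
          rcases hx with rfl | rfl <;> rcases hx' with h | h
          · exact absurd h hf1
          · exact absurd (h ▸ vf.2.1) (not_lt.2 vf.1)
          · exact absurd (h ▸ vf.2.1) (not_lt.2 vf.2.2.1)
          · exact h
        subst hf2
        have hlt : e1 < f1 := lt_of_le_of_ne vf.1 (Ne.symm hf1)
        have h3 : ¬ [(f1, f2), (e1, f2)] <+ L := bef_asymm hn hef
        rw [cU h.v (bef_mem_left hef) hlt vf.2.1, hU, ← cU h.v' m1 hlt vf.2.1] at h3
        exact not_bef hn' m2 m1 (fun h => hf1 (Prod.ext_iff.1 h).1) h3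
    · -- e = (a, y), y ≠ c
      have hf2 : f2 = c := by tauto
      subst hf2
      by_cases hf1 : f1 = e1
      · subst hf1
        have : e2 ∈ U f1 f2 L := mem_U.2 hef
        rw [hU] at this
        exact mem_U.1 this
      · have hfe : f1 = e2 := by
          rcases hx with rfl | rfl <;> rcases hx' with h | h
          · exact absurd h hf1
          · exact absurd h hac.ne'
          · exact h
          · exact absurd h.symm he2
        subst hfe
        -- e = (a, y), f = (y, c)
        have h3 : [(e1, f2), (f1, f2)] <+ L :=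
          (vf.2.2.2.2.1 e1 le_rfl ve.2.1).1 hef
        have hac' := bef_mem_left h3
        have h4 : f1 ∈ U e1 f2 L := by
          by_contra hc
          exact bef_asymm hn h3 ((cU h.v hac' ve.2.1 vf.2.1).2 hc)
        rw [hU] at h4
        have h5 : ¬ [(f1, f2), (e1, f2)] <+ L' := by
          rw [cU h.v' ((h.mem _).1 hac') ve.2.1 vf.2.1]
          exact not_not.2 h4
        have h6 := not_bef hn' m2 ((h.mem _).1 hac') (fun h => hf1 (Prod.ext_iff.1 h).1) h5
        exact bef_trans hn' (mem_U.1 h4) h6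
  · -- f.1 = a
    have hf1 : f1 = a := by tauto
    subst hf1
    by_cases hf2 : f2 = c
    · -- f = (a, c)
      subst hf2
      have he2 : e2 = f2 := by
        rcases hx with rfl | rfl <;> rcases hx' with h | h
        · exact absurd h.symm he1
        · exact absurd (h ▸ ve.2.1) (not_lt.2 ve.2.2.1)
        · exact absurd (h ▸ ve.2.1) (not_lt.2 ve.1)
        · exact h.symm
      subst he2
      have hlt : f1 < e1 := lt_of_le_of_ne ve.1 (Ne.symm he1)
      have h3 := hef
      rw [cU h.v (bef_mem_right hef) hlt ve.2.1, hU, ← cU h.v' m2 hlt ve.2.1] at h3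
      exact h3
    · have he2 : e2 = c := by tauto
      subst he2
      -- e = (y, c), f = (a, y)
      have hfe : e1 = f2 := by
        rcases hx with rfl | rfl <;> rcases hx' with h | h
        · exact absurd h.symm he1
        · exact h.symm
        · exact absurd h hac.ne
        · exact absurd h hf2
      subst hfe
      have h3 : [(f1, e2), (f1, e1)] <+ L := (vf.2.2.2.1 e2 ve.2.1 le_rfl).1 hef
      have hac' := bef_mem_left h3
      have h4 : e1 ∉ U f1 e2 L := fun hc => bef_asymm hn h3 (mem_U.1 hc)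
      rw [hU] at h4
      have h5 := (cU h.v' ((h.mem _).1 hac') vf.2.1 ve.2.1).2 h4
      rw [mem_U] at h4
      have h6 := not_bef hn' m2 ((h.mem _).1 hac') (fun h => hf2 (Prod.ext_iff.1 h).2) h4
      exact bef_trans hn' h5 h6

theorem Sit.eqv {a c : Fin (n + 1)} {L L' : List (Pr n)} (h : Sit a c L L') (hac : a < c)
    (hU : (U a c L).card = (U a c L').card) : Eqv L L' := by
  have hU' := h.eq_of_card hU
  intro x
  have hn := val_nodup h.v
  have hn' := val_nodup h.v'
  refine eq_of_order (hn.filter _) (hn'.filter _) ?_ ?_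
  · intro e
    unfold loc
    rw [List.mem_filter, List.mem_filter, h.mem]
  · intro e f hef
    unfold loc at hef ⊢
    have he := bef_mem_left hef
    have hf := bef_mem_right hef
    rw [List.mem_filter] at he hf
    exact bef_filter (h.ord hac hU' (by simpa using he.2) (by simpa using hf.2)
      (bef_of_filter hef)) he.2 hf.2

end Pool.Agent.X85.BS
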