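import Pool.Agent.X85.BS.Flip

/-! Flipping a triangle preserves validity. -/

set_option autoImplicit false

namespace Pool.Agent.X85.BS

open Pool.Agent.X189.BS List

variable {n : ℕ}

/-- the flip of a triangle preserves validity -/
theorem val_flip {a b c : Fin (n + 1)} {A M N B : List (Pr n)} (hab : a < b) (hbc : b < c)
    (hM : ∀ e ∈ M, Dis (b, c) e) (hN : ∀ e ∈ N, Dis (a, b) e)
    (h : Val a c (A ++ (b, c) :: (M ++ (a, c) :: (N ++ (a, b) :: B)))) :
    Val a c ((A ++ M) ++ (a, b) :: (a, c) :: (b, c) :: (N ++ B)) := by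
  have hn := val_nodup h
  rw [val_iff] at h ⊢
  rw [VF_append, VF, VF_append, VF, VF_append, VF] at h
  obtain ⟨hA, hbcG, hMV, hacG, hNV, habG, hBV⟩ := h
  rw [VF_append, VF_append, VF, VF, VF, VF_append]
  have hne1 : ((a, b) : Pr n) ≠ (a, c) := by
    intro h
    exact hbc.ne (Prod.ext_iff.1 h).2
  have hne2 : ((b, c) : Pr n) ≠ (a, c) := by
    intro h
    exact hab.ne' (Prod.ext_iff.1 h).1
  have hne3 : ((a, b) : Pr n) ≠ (b, c) := by
    intro h
    exact hab.ne (Prod.ext_iff.1 h).1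
  have hac : a < c := hab.trans hbc
  -- membership in `M` and `N`
  have hMb1 : ∀ z, (b, z) ∉ M := fun z hz => (hM _ hz).1 rfl
  have hMb2 : ∀ z, (z, b) ∉ M := fun z hz => (hM _ hz).2.2.1 rfl
  have hMc2 : ∀ z, (z, c) ∉ M := fun z hz => (hM _ hz).2.2.2 rfl
  have hNa1 : ∀ z, (a, z) ∉ N := fun z hz => (hN _ hz).1 rfl
  have hNb1 : ∀ z, (b, z) ∉ N := fun z hz => (hN _ hz).2.1 rfl
  have hNb2 : ∀ z, (z, b) ∉ N := fun z hz => (hN _ hz).2.2.2 rfl
  simp only [Good, false_or] at hbcG hacG habG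
  refine ⟨⟨hA, ?_⟩, ?_, ?_, ?_, ?_, ?_⟩
  · refine VF_congr ?_ hMV
    intro e he f hf
    have : f ≠ (b, c) := by
      rintro rfl
      apply hf
      obtain ⟨h1, h2, h3, h4⟩ := hM e he
      exact ⟨Ne.symm h1, Ne.symm h3, Ne.symm h2, Ne.symm h4⟩
    simp [this]
  · simp only [Good, false_or, List.mem_append]
    obtain ⟨-, -, -, g4, g5, g6, g7⟩ := habG
    refine ⟨le_refl _, hab, hbc.le, ?_, ?_, ?_, ?_⟩
    · intro hc
      apply g4
      tauto
    · intro z hz hz'
      have := g5 z hz hz'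
      rcases eq_or_lt_of_le hz' with rfl | hlt
      · have k1 : (b, z) ∉ A := fun h => hbcG.2.2.2.1 h
        have k2 : (a, z) ∉ A := fun h => hacG.2.2.2.1 (Or.inl (Or.inl h))
        have k3 := hMb1 z
        have k4 := hMc2 a
        tauto
      · have k1 : ((b, z) : Pr n) ≠ (b, c) := fun h => hlt.ne (Prod.ext_iff.1 h).2
        have k2 : ((a, z) : Pr n) ≠ (b, c) := fun h => hab.ne (Prod.ext_iff.1 h).1
        have k3 : ((b, z) : Pr n) ≠ (a, c) := fun h => hab.ne' (Prod.ext_iff.1 h).1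
        have k4 : ((a, z) : Pr n) ≠ (a, c) := fun h => hlt.ne (Prod.ext_iff.1 h).2
        have k5 := hNb1 z
        have k6 := hNa1 z
        tauto
    · intro z hz hz'
      exact absurd hz' (not_lt.2 hz)
    · intro z hz hz'
      have := g7 z hz hz'
      have k1 : ((a, z) : Pr n) ≠ (b, c) := fun h => hab.ne (Prod.ext_iff.1 h).1
      have k2 : ((z, b) : Pr n) ≠ (b, c) := fun h => hbc.ne (Prod.ext_iff.1 h).2
      have k3 : ((a, z) : Pr n) ≠ (a, c) := fun h => (hz'.trans hbc).ne (Prod.ext_iff.1 h).2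
      have k4 : ((z, b) : Pr n) ≠ (a, c) := fun h => hbc.ne (Prod.ext_iff.1 h).2
      have k5 := hNa1 z
      have k6 := hNb2 z
      tauto
  · simp only [Good, false_or, List.mem_append]
    obtain ⟨-, -, -, g4, g5, g6, g7⟩ := hacG
    refine ⟨le_refl _, hac, le_refl _, ?_, ?_, ?_, ?_⟩
    · rintro ((hc | hc) | hc)
      · exact g4 (Or.inl (Or.inl hc))
      · exact g4 (Or.inr hc)
      · exact hne1 hc.symm
    · intro z hz hz'
      exact absurd hz (not_lt.2 hz')
    · intro z hz hz'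
      exact absurd hz' (not_lt.2 hz)
    · intro z hz hz'
      have := g7 z hz hz'
      by_cases hzb : z = b
      · subst hzb
        have k1 : (z, c) ∉ A := fun h => hbcG.2.2.2.1 h
        have k2 := hMc2 z
        have k3 : ((z, c) : Pr n) ≠ (a, z) := fun h => hab.ne' (Prod.ext_iff.1 h).1
        tauto
      · have k1 : ((a, z) : Pr n) ≠ (b, c) := fun h => hab.ne (Prod.ext_iff.1 h).1
        have k2 : ((z, c) : Pr n) ≠ (b, c) := fun h => hzb (Prod.ext_iff.1 h).1
        have k3 : ((a, z) : Pr n) ≠ (a, b) := fun h => hzb (Prod.ext_iff.1 h).2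
        have k4 : ((z, c) : Pr n) ≠ (a, b) := fun h => hbc.ne' (Prod.ext_iff.1 h).2
        tauto
  · simp only [Good, false_or, List.mem_append]
    obtain ⟨-, -, -, g4, g5, g6, g7⟩ := hbcG
    refine ⟨hab.le, hbc, le_refl _, ?_, ?_, ?_, ?_⟩
    · rintro (((hc | hc) | hc) | hc)
      · exact g4 hc
      · exact hMb1 c hc
      · exact hne3 hc.symm
      · exact hne2 hc
    · intro z hz hz'
      exact absurd hz (not_lt.2 hz')
    · intro z hz hz'
      have := g6 z hz hz'
      by_cases hza : z = a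
      · subst hza
        simp
      · have k1 : ((z, b) : Pr n) ≠ (a, b) := fun h => hza (Prod.ext_iff.1 h).1
        have k2 : ((z, c) : Pr n) ≠ (a, b) := fun h => hza (Prod.ext_iff.1 h).1
        have k3 : ((z, b) : Pr n) ≠ (a, c) := fun h => hza (Prod.ext_iff.1 h).1
        have k4 : ((z, c) : Pr n) ≠ (a, c) := fun h => hza (Prod.ext_iff.1 h).1
        have k5 := hMb2 z
        have k6 := hMc2 z
        tauto
    · intro z hz hz'
      have := g7 z hz hz'
      have haz : a ≠ z := (hab.trans hz).ne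
      have k1 : ((b, z) : Pr n) ≠ (a, b) := fun h => hab.ne' (Prod.ext_iff.1 h).1
      have k2 : ((z, c) : Pr n) ≠ (a, b) := fun h => haz (Prod.ext_iff.1 h).1.symm
      have k3 : ((b, z) : Pr n) ≠ (a, c) := fun h => hab.ne' (Prod.ext_iff.1 h).1
      have k4 : ((z, c) : Pr n) ≠ (a, c) := fun h => haz (Prod.ext_iff.1 h).1.symm
      have k5 := hMb1 z
      have k6 := hMc2 z
      tauto
  · refine VF_congr ?_ hNV
    intro e he f hf
    have : f ≠ (a, b) := by
      rintro rfl
      apply hf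
      obtain ⟨h1, h2, h3, h4⟩ := hN e he
      exact ⟨Ne.symm h1, Ne.symm h3, Ne.symm h2, Ne.symm h4⟩
    simp only [List.mem_append]
    tauto
  · refine VF_congr ?_ hBV
    intro e he f hf
    simp only [List.mem_append]
    tauto

end Pool.Agent.X85.BS
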